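import Mathlib
import Pool.Agent.H204R3.GP.MTDefs

/-!
# Hodge classes and Tate classes on `A ^ n × Z ^ a`
-/

set_option autoImplicit false

namespace Pool.Agent.U400.MM

open Pool.Agent.H204R3.GP

/-- Multilinear forms in `n` variables in `W` and `a` variables in `N`. -/
abbrev Mixed (R W N : Type) [CommSemiring R] [AddCommMonoid W] [Module R W] [AddCommMonoid N] [Module R N]
    (n a : ℕ) : Type :=
  MultilinearMap R (fun _ : Fin n => W) (MultilinearMap R (fun _ : Fin a => N) R)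

section Hodge

variable {W T N₀ TN : Type} [AddCommGroup W] [Module ℚ W] [AddCommGroup T] [Module ℂ T]
  [AddCommGroup N₀] [Module ℚ N₀] [AddCommGroup TN] [Module ℝ TN]

/-- A Hodge form of weight `c` on `N₀`. -/
def IsHodgeForm (perN : N₀ →+ TN) (h : ℂ → Module.End ℝ TN) (c : ℤ) {a : ℕ}
    (ψ : MultilinearMap ℚ (fun _ : Fin a => N₀) ℚ) : Prop :=
  ∃ Ψ : MultilinearMap ℝ (fun _ : Fin a => TN) ℝ, (∀ y : Fin a → N₀, Ψ (fun i => perN (y i)) = ψ y) ∧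
    ∀ z : ℂ, z ≠ 0 → ∀ y : Fin a → TN, Ψ (fun i => h z (y i)) = (‖z‖ ^ 2) ^ c * Ψ y

/-- A Hodge form of weight `c` on `W` and `N₀`. -/
def IsMixedHodgeForm (per : W →+ T) (perN : N₀ →+ TN) (h : ℂ → Module.End ℝ TN) (c : ℤ) {n a : ℕ}
    (ψ : Mixed ℚ W N₀ n a) : Prop :=
  ∃ Ψ : Mixed ℝ T TN n a, (∀ x y, Ψ (fun l => per (x l)) (fun i => perN (y i)) = ψ x y) ∧
    ∀ z : ℂ, z ≠ 0 → ∀ x y, Ψ (fun l => z • x l) (fun i => h z (y i)) = (‖z‖ ^ 2) ^ c * Ψ x y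

/-- products -/
def IsProductForm (per : W →+ T) (perN : N₀ →+ TN) (h : ℂ → Module.End ℝ TN) (c : ℤ) {n a : ℕ}
    (ψ : Mixed ℚ W N₀ n a) : Prop :=
  ∃ (m : ℕ) (e : Fin m × Fin 2 ≃ Fin n) (B : Fin m → W →ₗ[ℚ] W →ₗ[ℚ] ℚ)
    (ψ₀ : MultilinearMap ℚ (fun _ : Fin a => N₀) ℚ), (∀ l, IsHodgeBilinear per (B l)) ∧
      IsHodgeForm perN h (c - m) ψ₀ ∧
      ∀ x y, ψ x y = (∏ l, B l (x (e (l, 0))) (x (e (l, 1)))) * ψ₀ y

end Hodge

section Tate

variable {k V N Γ : Type} [Field k] [AddCommGroup V] [Module k V] [AddCommGroup N] [Module k N] [Group Γ]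

/-- A Tate form of weight `c` on `N`. -/
def IsTateForm (χ : Γ →* k) (σ : Representation k Γ N) (c : ℤ) {a : ℕ}
    (φ : MultilinearMap k (fun _ : Fin a => N) k) : Prop :=
  ∃ Δ : Subgroup Γ, Δ.FiniteIndex ∧ ∀ g ∈ Δ, ∀ y, φ (fun i => σ g (y i)) = χ g ^ c * φ y

/-- A Tate form of weight `c` on `V` and `N`. -/
def IsMixedTateForm (ρ : Representation k Γ V) (χ : Γ →* k) (σ : Representation k Γ N) (c : ℤ) {n a : ℕ}
    (φ : Mixed k V N n a) : Prop :=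
  ∃ Δ : Subgroup Γ, Δ.FiniteIndex ∧ ∀ g ∈ Δ, ∀ x y,
    φ (fun l => ρ g (x l)) (fun i => σ g (y i)) = χ g ^ c * φ x y

end Tate

section MT

variable {k V N Γ : Type} [Field k] [CharZero k] [AddCommGroup V] [Module k V] [AddCommGroup N] [Module k N]
  [Group Γ] {W T N₀ TN : Type} [AddCommGroup W] [Module ℚ W] [AddCommGroup T] [Module ℂ T]
  [AddCommGroup N₀] [Module ℚ N₀] [AddCommGroup TN] [Module ℝ TN]

/-- Tate forms are Hodge forms, for `N`. -/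
def TateHodge (perN : N₀ →+ TN) (h : ℂ → Module.End ℝ TN) (compN : N₀ →+ N) (χ : Γ →* k)
    (σ : Representation k Γ N) : Prop :=
  ∀ (a : ℕ) (c : ℤ) (φ : MultilinearMap k (fun _ : Fin a => N) k), IsTateForm χ σ c φ →
    φ ∈ Submodule.span k {φ' : MultilinearMap k (fun _ : Fin a => N) k |
      ∃ ψ : MultilinearMap ℚ (fun _ : Fin a => N₀) ℚ, IsHodgeForm perN h c ψ ∧
        ∀ y, φ' (fun i => compN (y i)) = ((ψ y : ℚ) : k)}

/-- Tate forms are Hodge forms, for `V` and `N`. -/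
def MixedTateHodge (per : W →+ T) (comp : W →+ V) (ρ : Representation k Γ V) (perN : N₀ →+ TN)
    (h : ℂ → Module.End ℝ TN) (compN : N₀ →+ N) (χ : Γ →* k) (σ : Representation k Γ N) : Prop :=
  ∀ (n a : ℕ) (c : ℤ) (φ : Mixed k V N n a), IsMixedTateForm ρ χ σ c φ →
    φ ∈ Submodule.span k {φ' : Mixed k V N n a | ∃ ψ : Mixed ℚ W N₀ n a,
      IsMixedHodgeForm per perN h c ψ ∧ IsProductForm per perN h c ψ ∧
        ∀ x y, φ' (fun l => comp (x l)) (fun i => compN (y i)) = ((ψ x y : ℚ) : k)}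

end MT

end Pool.Agent.U400.MM
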