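import Mathlib
import Pool.Agent.U400.HM.Good

/-!
# Frobenius eigenvalues on spaces of multilinear forms
-/

set_option autoImplicit false

namespace Pool.Agent.U400.MM

open Polynomial Module Pool.Agent.W484.TB Pool.Agent.U400.HM

section

variable {k : Type*} [Field k] {N : Type*} [AddCommGroup N] [Module k N]

/-- The forms in `a` variables. -/
abbrev Fm (k N : Type*) [Field k] [AddCommGroup N] [Module k N] (a : ℕ) :=
  MultilinearMap k (fun _ : Fin a => N) k

/-- `T` at the place `i` -/
noncomputable def mat {a : ℕ} (i : Fin a) : Module.End k N →ₗ[k] Module.End k (Fm k N a) where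
  toFun T := MultilinearMap.compLinearMapMultilinear (R := k) (M₁ := fun _ : Fin a => N)
    (M₁' := fun _ : Fin a => N) (M₂ := k) (Function.update (fun _ => 1) i T)
  map_add' _ _ := MultilinearMap.map_update_add _ _ _ _ _
  map_smul' _ _ := MultilinearMap.map_update_smul _ _ _ _ _

theorem mat_apply {a : ℕ} (i : Fin a) (T : Module.End k N) (φ : Fm k N a) (n : Fin a → N) :
    mat i T φ n = φ (fun j => (Function.update (fun _ => (1 : Module.End k N)) i T j) (n j)) := rfl

theorem mat_one {a : ℕ} (i : Fin a) : mat i (1 : Module.End k N) = 1 := by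
  ext φ n
  rw [mat_apply, Module.End.one_apply]
  congr 1
  funext j
  by_cases hj : j = i
  · subst hj; rw [Function.update_self]; rfl
  · rw [Function.update_of_ne hj]; rfl

theorem mat_mul {a : ℕ} (i : Fin a) (S T : Module.End k N) : mat i (S * T) = mat i T * mat i S := by
  ext φ n
  rw [Module.End.mul_apply, mat_apply, mat_apply, mat_apply]
  congr 1
  funext j
  by_cases hj : j = i
  · subst hj; rw [Function.update_self, Function.update_self, Function.update_self]; rfl
  · rw [Function.update_of_ne hj, Function.update_of_ne hj, Function.update_of_ne hj]; rfl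

theorem mat_pow {a : ℕ} (i : Fin a) (T : Module.End k N) (n : ℕ) : mat i (T ^ n) = mat i T ^ n := by
  induction n with
  | zero => rw [pow_zero, pow_zero, mat_one]
  | succ n ih => rw [pow_succ, mat_mul, ih, pow_succ']

theorem mat_comm {a : ℕ} (i j : Fin a) (T : Module.End k N) :
    mat i T * mat j T = mat j T * mat i T := by
  ext φ n
  rw [Module.End.mul_apply, Module.End.mul_apply, mat_apply, mat_apply, mat_apply, mat_apply]
  congr 1
  funext l
  by_cases hi : l = i
  · subst hi
    by_cases hj : l = j
    · subst hj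
      rfl
    · rw [Function.update_self, Function.update_of_ne hj]; rfl
  · rw [Function.update_of_ne hi]
    rfl

theorem mat_list {a : ℕ} (T : Module.End k N) (φ : Fm k N a) (n : Fin a → N) :
    ∀ l : List (Fin a), l.Nodup → (l.map (fun i => mat i T)).prod φ n =
      φ (fun i => (if i ∈ l then T else (1 : Module.End k N)) (n i)) := by
  intro l
  induction l generalizing φ n with
  | nil =>
    intro _
    rw [List.map_nil, List.prod_nil, Module.End.one_apply]
    congr 1
  | cons j l ih =>
    intro hn
    rw [List.nodup_cons] at hn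
    rw [List.map_cons, List.prod_cons, Module.End.mul_apply, mat_apply, ih _ _ hn.2]
    congr 1
    funext i
    by_cases hij : i = j
    · subst hij
      rw [Function.update_self, if_neg hn.1, if_pos List.mem_cons_self]
      rfl
    · rw [Function.update_of_ne hij]
      by_cases hi : i ∈ l
      · rw [if_pos hi, if_pos (List.mem_cons_of_mem _ hi)]
        rfl
      · rw [if_neg hi, if_neg]
        · rfl
        rw [List.mem_cons, not_or]
        exact ⟨hij, hi⟩

end

section

variable {k : Type*} [Field k] {N : Type*} [AddCommGroup N] [Module k N] {Γ : Type*} [Group Γ]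

/-- The representation on the forms in `a` variables. -/
noncomputable def fmR (σ : Representation k Γ N) (a : ℕ) : Representation k Γ (Fm k N a) where
  toFun s := MultilinearMap.compLinearMapMultilinear (R := k) (M₁ := fun _ : Fin a => N)
    (M₁' := fun _ : Fin a => N) (M₂ := k) (fun _ => σ s⁻¹)
  map_one' := by
    ext φ n
    change φ (fun i => σ (1 : Γ)⁻¹ (n i)) = φ n
    rw [inv_one, map_one]
    rfl
  map_mul' s t := by
    ext φ n
    change φ (fun i => σ (s * t)⁻¹ (n i)) = φ (fun i => σ t⁻¹ (σ s⁻¹ (n i)))
    rw [mul_inv_rev, map_mul]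
    rfl

theorem fmR_apply (σ : Representation k Γ N) (a : ℕ) (s : Γ) (φ : Fm k N a) (n : Fin a → N) :
    fmR σ a s φ n = φ (fun i => σ s⁻¹ (n i)) := rfl

variable [CharZero k] [FiniteDimensional k N]

/-- **The eigenvalues on the forms.** -/
theorem form_poly (E : IntermediateField ℚ ℂ) {r : ℕ} (P : ℚ[X])
    (hrank : RankLEOver E r {z : ℂ | aeval z P = 0}) (σ : Representation k Γ N) (γ : Γ)
    (hP : aeval (σ γ⁻¹) (P.map (algebraMap ℚ k)) = 0) (a : ℕ)
    {K : Type*} [Field K] [CharZero K] [Algebra k K] (ρ' : K)
    (hρ : ((fmR σ a γ⁻¹).charpoly.map (algebraMap k K)).IsRoot ρ') :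
    ∃ P' : ℚ[X], P' ≠ 0 ∧ RankLEOver E r {z : ℂ | aeval z P' = 0} ∧ aeval ρ' P' = 0 := by
  classical
  let L : List (Module.End k (Fm k N a)) := (List.finRange a).map (fun i => mat i (σ γ))
  have h3 : L.prod = fmR σ a γ⁻¹ := by
    ext φ n
    change ((List.finRange a).map (fun i => mat i (σ γ))).prod φ n = _
    rw [mat_list _ _ _ _ (List.nodup_finRange a), fmR_apply, inv_inv]
    congr 1
    funext i
    rw [if_pos (List.mem_finRange i)]
  rw [← h3] at hρ
  have hL : ∀ T ∈ L, ∃ i : Fin a, T = mat i (σ γ) := by
    intro T hT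
    obtain ⟨i, -, rfl⟩ := List.mem_map.1 hT
    exact ⟨i, rfl⟩
  refine exists_poly E P hrank L ?_ ?_ ρ' hρ
  · intro S hS T hT
    obtain ⟨i, rfl⟩ := hL S hS
    obtain ⟨j, rfl⟩ := hL T hT
    exact mat_comm i j _
  · intro T hT
    right
    obtain ⟨i, rfl⟩ := hL T hT
    refine ⟨mat i (σ γ⁻¹), ?_, ?_⟩
    · rw [← mat_mul, ← map_mul, mul_inv_cancel, map_one, mat_one]
    · exact aeval_lin (fun T : Module.End k N => (mat i T : Module.End k (Fm k N a)))
        (fun x y => by simp only [map_add]) (fun c x => by simp only [map_smul]) (σ γ⁻¹)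
        (fun n => by simp only [mat_pow]) _ hP

end

end Pool.Agent.U400.MM
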