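import Mathlib
import Pool.Agent.U400.MM.Forms
import Pool.Agent.U400.MM.Def
import Pool.Agent.H204R3.GP.MT

/-!
# Tate forms on `A ^ n × Z ^ a` are Hodge forms
-/

set_option autoImplicit false
set_option linter.unusedSectionVars false

namespace Pool.Agent.U400.MM

open Polynomial Module Pool.Agent.H204R3.GP Pool.Agent.U400.HM Pool.Agent.H204R3.SP
  Pool.Agent.N166.CZ

noncomputable section

section tens

variable {k : Type*} [Field k] {V H : Type*} [AddCommGroup V] [Module k V] [AddCommGroup H]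
  [Module k H]

/-- The product of a form with a vector. -/
def tens {n m : ℕ} (e : Fin m × Fin 2 ≃ Fin n) (w : MultilinearMap k (fun _ : Fin m × Fin 2 => V) k)
    (z : H) : MultilinearMap k (fun _ : Fin n => V) H :=
  (LinearMap.toSpanSingleton k H z).compMultilinearMap (w.domDomCongr e)

theorem tens_apply {n m : ℕ} (e : Fin m × Fin 2 ≃ Fin n)
    (w : MultilinearMap k (fun _ : Fin m × Fin 2 => V) k) (z : H) (x : Fin n → V) :
    tens e w z x = w (fun l => x (e l)) • z := rfl

theorem tens_mem {n m : ℕ} (e : Fin m × Fin 2 ≃ Fin n)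
    {A : Set (MultilinearMap k (fun _ : Fin m × Fin 2 => V) k)} {B : Set H}
    {S : Set (MultilinearMap k (fun _ : Fin n => V) H)}
    (h : ∀ w ∈ A, ∀ z ∈ B, tens e w z ∈ Submodule.span k S)
    {w : MultilinearMap k (fun _ : Fin m × Fin 2 => V) k} (hw : w ∈ Submodule.span k A)
    {z : H} (hz : z ∈ Submodule.span k B) : tens e w z ∈ Submodule.span k S := by
  induction hw using Submodule.span_induction with
  | mem w hw =>
    induction hz using Submodule.span_induction with
    | mem z hz => exact h w hw z hz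
    | zero =>
      have : tens e w (0 : H) = 0 := by
        ext x
        rw [tens_apply, smul_zero]
        rfl
      rw [this]
      exact Submodule.zero_mem _
    | add a b _ _ ha hb =>
      have : tens e w (a + b) = tens e w a + tens e w b := by
        ext x
        rw [tens_apply, smul_add]
        rfl
      rw [this]
      exact Submodule.add_mem _ ha hb
    | smul c a _ ha =>
      have : tens e w (c • a) = c • tens e w a := by
        ext x
        rw [tens_apply, smul_comm]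
        rfl
      rw [this]
      exact Submodule.smul_mem _ _ ha
  | zero =>
    have : tens e (0 : MultilinearMap k (fun _ : Fin m × Fin 2 => V) k) z = 0 := by
      ext x
      rw [tens_apply]
      exact zero_smul k z
    rw [this]
    exact Submodule.zero_mem _
  | add a b _ _ ha hb =>
    have : tens e (a + b) z = tens e a z + tens e b z := by
      ext x
      rw [tens_apply]
      exact add_smul _ _ z
    rw [this]
    exact Submodule.add_mem _ ha hb
  | smul c a _ ha =>
    have : tens e (c • a) z = c • tens e a z := by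
      ext x
      rw [tens_apply]
      exact mul_smul _ _ z
    rw [this]
    exact Submodule.smul_mem _ _ ha

end tens

variable {k V N Γ : Type} [Field k] [CharZero k] [AddCommGroup V] [Module k V]
  [FiniteDimensional k V] [AddCommGroup N] [Module k N] [FiniteDimensional k N]
  [Group Γ] {W T N₀ TN : Type} [AddCommGroup W] [Module ℚ W] [AddCommGroup T] [Module ℂ T]
  [AddCommGroup N₀] [Module ℚ N₀] [AddCommGroup TN] [Module ℝ TN]

/-- A product of compared forms. -/
theorem tens_good (per : W →+ T) (comp : W →+ V) (perN : N₀ →+ TN)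
    (h : ℂ → Module.End ℝ TN) (compN : N₀ →+ N) {n m a : ℕ} (e : Fin m × Fin 2 ≃ Fin n) (c : ℤ)
    (σ : Equiv.Perm (Fin m × Fin 2)) (B : Fin m → (V →ₗ[k] V →ₗ[k] k))
    (hB : ∀ l, B l ∈ HB (k := k) per comp) (z : MultilinearMap k (fun _ : Fin a => N) k)
    (ψ₀ : MultilinearMap ℚ (fun _ : Fin a => N₀) ℚ) (hψ₀ : IsHodgeForm perN h (c - m) ψ₀)
    (hz : ∀ y, z (fun i => compN (y i)) = ((ψ₀ y : ℚ) : k)) :
    ∃ ψ : Mixed ℚ W N₀ n a, IsMixedHodgeForm per perN h c ψ ∧ IsProductForm per perN h c ψ ∧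
        ∀ x y, tens e (mmG σ B) z (fun l => comp (x l)) (fun i => compN (y i)) =
          ((ψ x y : ℚ) : k) := by
  classical
  choose B₀ hB₀ hBB using hB
  have hB₀' := hB₀
  choose E hE1 hE2 using hB₀'
  have hψ₀' := hψ₀
  obtain ⟨Ψ₀, hΨ1, hΨ2⟩ := hψ₀'
  have hE3 : ∀ l (z : ℂ), z ≠ 0 → ∀ u v, E l (z • u) (z • v) = ‖z‖ ^ 2 * E l u v := by
    intro l z hz u v
    have hn : (‖z‖ : ℝ) ≠ 0 := norm_ne_zero_iff.2 hz
    let w : ℂ := z / (‖z‖ : ℝ)
    have hw : ‖w‖ = 1 := by
      simp only [w]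
      rw [norm_div, Complex.norm_real, norm_norm, div_self hn]
    have hzw : ∀ u : T, z • u = (‖z‖ : ℝ) • (w • u) := by
      intro u
      have h1 : z = ((‖z‖ : ℝ) : ℂ) * w := by
        have hn' : ((‖z‖ : ℝ) : ℂ) ≠ 0 := Complex.ofReal_ne_zero.2 hn
        simp only [w]
        rw [mul_div_assoc', mul_div_cancel_left₀ _ hn']
      conv_lhs => rw [h1]
      rw [mul_smul]
      rfl
    have h2 : E l (‖z‖ • (w • u)) (‖z‖ • (w • v)) = ‖z‖ * (‖z‖ * E l (w • u) (w • v)) := by
      rw [LinearMap.map_smul (E l), LinearMap.smul_apply, LinearMap.map_smul (E l (w • u)),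
        smul_eq_mul, smul_eq_mul]
    rw [hzw u, hzw v, h2, hE2 l w hw]
    ring
  refine ⟨tens e (mmG σ B₀) ψ₀, ⟨tens e (mmG σ E) Ψ₀, ?_, ?_⟩,
    ⟨m, σ.trans e, B₀, ψ₀, hB₀, hψ₀, fun x y => rfl⟩, ?_⟩
  · intro x y
    change (∏ l, E l (per (x (e (σ (l, 0))))) (per (x (e (σ (l, 1)))))) * Ψ₀ (fun i => perN (y i)) =
      (((∏ l, B₀ l (x (e (σ (l, 0)))) (x (e (σ (l, 1))))) * ψ₀ y : ℚ) : ℝ)
    rw [hΨ1]
    push_cast
    congr 1
    exact Finset.prod_congr rfl fun l _ => hE1 l _ _
  · intro z hz x y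
    change (∏ l, E l (z • (x (e (σ (l, 0))))) (z • (x (e (σ (l, 1)))))) *
      Ψ₀ (fun i => h z (y i)) = (‖z‖ ^ 2) ^ c *
        ((∏ l, E l (x (e (σ (l, 0)))) (x (e (σ (l, 1))))) * Ψ₀ y)
    have hn : (‖z‖ ^ 2 : ℝ) ≠ 0 := pow_ne_zero 2 (norm_ne_zero_iff.2 hz)
    rw [hΨ2 z hz, Finset.prod_congr rfl (fun l _ => hE3 l z hz _ _), Finset.prod_mul_distrib,
      Finset.prod_const, Finset.card_univ, Fintype.card_fin, zpow_sub₀ hn, zpow_natCast]
    field_simp
  · intro x y
    change (∏ l, B l (comp (x (e (σ (l, 0))))) (comp (x (e (σ (l, 1)))))) *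
      z (fun i => compN (y i)) =
      (((∏ l, B₀ l (x (e (σ (l, 0)))) (x (e (σ (l, 1))))) * ψ₀ y : ℚ) : k)
    rw [hz]
    push_cast
    congr 1
    exact Finset.prod_congr rfl fun l _ => hBB l _ _

/-- **Tate forms are Hodge forms.** -/
theorem mixed_of (per : W →+ T) (comp : W →+ V) (ρ : Representation k Γ V) (χ : Γ →* k)
    (ω : V →ₗ[k] V →ₗ[k] k) (hnd' : ∀ u, (∀ v, ω u v = 0) → u = 0)
    (hωρ : ∀ s u v, ω (ρ s u) (ρ s v) = χ s * ω u v)
    (ω₀ : W →ₗ[ℚ] W →ₗ[ℚ] ℚ) (hω₀ : IsHodgeBilinear per ω₀)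
    (hωω : ∀ x y, ω (comp x) (comp y) = ((ω₀ x y : ℚ) : k))
    (hF : FaltingsEnd per comp ρ) (perN : N₀ →+ TN)
    (h : ℂ → Module.End ℝ TN) (compN : N₀ →+ N) (σ : Representation k Γ N)
    (hC : ∀ a, CoreFor ρ χ (fmR σ a)) (hN : TateHodge perN h compN χ σ) :
    MixedTateHodge per comp ρ perN h compN χ σ := by
  classical
  intro n a c φ hφ
  have hM : IsTateM ρ χ (fmR σ a) c φ := by
    obtain ⟨Δ, hΔ, hφ⟩ := hφ
    refine ⟨Δ, hΔ, fun g hg x => ?_⟩
    ext y
    have h1 := hφ g hg x (fun i => σ g⁻¹ (y i))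
    have h2 : (fun i => σ g (σ g⁻¹ (y i))) = y := by
      funext i
      rw [← Module.End.mul_apply, ← map_mul, mul_inv_cancel, map_one, Module.End.one_apply]
    rw [h2] at h1
    rw [h1]
    rfl
  rcases Nat.even_or_odd n with he | ho
  · obtain ⟨m, hm⟩ := he
    obtain ⟨e⟩ : Nonempty (Fin m × Fin 2 ≃ Fin n) := by
      rw [← Fintype.card_eq, Fintype.card_prod, Fintype.card_fin, Fintype.card_fin,
        Fintype.card_fin]
      omega
    have hM' : IsTateM ρ χ (fmR σ a) c (φ.domDomCongr e.symm) := by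
      obtain ⟨Δ, hΔ, hM⟩ := hM
      exact ⟨Δ, hΔ, fun g hg v => hM g hg _⟩
    obtain ⟨Tt, z, hz, hsum⟩ := even_sum ρ χ (fmR σ a) (hC a) hM'
    have hφs : φ = ∑ w ∈ Tt, tens e (w : MultilinearMap k (fun _ : Fin m × Fin 2 => V) k) (z w) := by
      refine MultilinearMap.ext fun x => ?_
      have h1 := hsum (fun l => x (e l))
      rw [MultilinearMap.domDomCongr_apply] at h1
      simp only [Equiv.apply_symm_apply] at h1
      rw [MultilinearMap.sum_apply]
      exact h1
    rw [hφs]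
    refine Submodule.sum_mem _ fun w hw => ?_
    -- the two factors
    have hz1 : IsTateForm χ σ (c - m) (z w) := by
      obtain ⟨Δ, hΔ, hΔz⟩ := hz w hw
      refine ⟨Δ, hΔ, fun g hg y => ?_⟩
      have h1 := congrArg (fun F : Fm k N a => F (fun i => σ g (y i))) (hΔz g hg)
      have h2 : (χ g ^ (c - m) • fmR σ a g (z w)) (fun i => σ g (y i)) =
          χ g ^ (c - m) * (z w) y := by
        change χ g ^ (c - m) * fmR σ a g (z w) (fun i => σ g (y i)) = _
        rw [fmR_apply]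
        congr 2
        funext i
        rw [← Module.End.mul_apply, ← map_mul, inv_mul_cancel, map_one, Module.End.one_apply]
      rw [← h2]
      exact h1.symm
    have hz2 := hN a (c - m) (z w) hz1
    obtain ⟨w, σ', B, hB, rfl⟩ := w
    have hw2 := mmG_mem_span σ' (HB (k := k) per comp) B
      (fun l => tate2_mem per comp ρ χ ω hnd' hωρ ω₀ hω₀ hωω hF (B l) (hB l))
    refine tens_mem e ?_ hw2 hz2
    rintro _ ⟨B', hB', rfl⟩ z' ⟨ψ₀, hψ₀, hzψ⟩
    obtain ⟨ψ, h1, h2, h3⟩ := tens_good per comp perN h compN e c σ' B' hB' z' ψ₀ hψ₀ hzψ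
    exact Submodule.subset_span ⟨ψ, h1, h2, h3⟩
  · have h0 : φ = 0 := by
      refine MultilinearMap.ext fun x => ?_
      exact odd_zero ρ χ (fmR σ a) (hC a) (by rw [Fintype.card_fin]; exact ho) hM x
    rw [h0]
    exact Submodule.zero_mem _

/-- For `A` alone. -/
theorem tensor_of (ρ : Representation k Γ V) (χ : Γ →* k)
    (hC : CoreFor ρ χ (1 : Representation k Γ k)) (m : ℕ)
    (φ : MultilinearMap k (fun _ : Fin m × Fin 2 => V) k) (hφ : IsTate ρ χ m φ) :
    φ ∈ Submodule.span k (PT ρ χ m) := by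
  have hM : IsTateM ρ χ (1 : Representation k Γ k) m φ := by
    obtain ⟨Δ, hΔ, hφ⟩ := hφ
    refine ⟨Δ, hΔ, fun g hg x => ?_⟩
    rw [hφ g hg, zpow_natCast]
    rfl
  obtain ⟨Tt, z, -, hsum⟩ := even_sum ρ χ (1 : Representation k Γ k) hC hM
  have hφs : φ = ∑ w ∈ Tt, z w • (w : MultilinearMap k (fun _ : Fin m × Fin 2 => V) k) := by
    refine MultilinearMap.ext fun x => ?_
    rw [hsum x, MultilinearMap.sum_apply]
    refine Finset.sum_congr rfl fun w _ => ?_
    rw [MultilinearMap.smul_apply, smul_eq_mul, smul_eq_mul, mul_comm]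
  rw [hφs]
  exact Submodule.sum_mem _ fun w _ => Submodule.smul_mem _ _ (Submodule.subset_span w.2)

end

end Pool.Agent.U400.MM
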