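import Mathlib
import Pool.Agent.U400.TP.Main
import Pool.Agent.U400.MM.Mix
import Pool.Agent.N578.LB.Main

/-!
# The Mumford-Tate conjecture from one reduction
-/

set_option autoImplicit false

namespace Pool.Agent.U400.MM

open Module Polynomial Pool.Agent.H204R3.GP Pool.Agent.W484.TB
  Pool.Agent.W521.Frob Pool.Agent.W521.Count Pool.Agent.W521.Descent Pool.Agent.W521.Density
  Pool.Agent.N166.CZ Pool.Agent.U400.TP Pool.Agent.U400.HM

/-- the property of the families of Weil polynomials -/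
def Prop3 {I : Type} [Fintype I] (E : IntermediateField ℚ ℂ) (q r : ℕ) (f : I → ℤ[X]) : Prop :=
  ∀ (k : Type) [Field k] [CharZero k] (V : Type) [AddCommGroup V] [Module k V]
    [FiniteDimensional k V] (Γ : Type) [Group Γ] (ρ : Representation k Γ V) (χ : Γ →* k)
    (ω : V →ₗ[k] V →ₗ[k] k), (∀ v, ω v v = 0) → (∀ u, (∀ v, ω v u = 0) → u = 0) →
    (∀ s u v, ω (ρ s u) (ρ s v) = χ s * ω u v) → FiniteIndexSemisimple ρ →
    ∀ (W T : Type) [AddCommGroup W] [Module ℚ W] [AddCommGroup T] [Module ℂ T] (per : W →+ T)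
      (comp : W →+ V) (ω₀ : W →ₗ[ℚ] W →ₗ[ℚ] ℚ), IsHodgeBilinear per ω₀ →
    (∀ x y, ω (comp x) (comp y) = ((ω₀ x y : ℚ) : k)) → FaltingsEnd per comp ρ →
    ∀ γ : Γ, χ γ = q → (ρ γ).charpoly = ∏ i, (f i).map (Int.castRingHom k) →
    MumfordTateStrong per comp ρ χ ∧
    ∀ (N : Type) [AddCommGroup N] [Module k N] [FiniteDimensional k N]
      (σ : Representation k Γ N), (SmallRank E r (σ γ⁻¹) ∨ Few q (2 * r + 1) (σ γ⁻¹)) →
      ∀ (N₀ TN : Type) [AddCommGroup N₀] [Module ℚ N₀] [AddCommGroup TN] [Module ℝ TN]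
        (perN : N₀ →+ TN) (h : ℂ → Module.End ℝ TN) (compN : N₀ →+ N),
        TateHodge perN h compN χ σ → MixedTateHodge per comp ρ perN h compN χ σ

theorem prop3_of_good {I : Type} [Fintype I] (g : I → ℕ) (E : IntermediateField ℚ ℂ)
    [FiniteDimensional ℚ E] (r : ℕ) (hr : ∀ i, r < g i) (q : ℕ) (hq : IsPrimePow q)
    (x : (Σ i, Fin (g i)) → ℤ) (hx : GoodU (splitPrimes E) g q x) :
    Prop3 E q r (fun i => weil q (polys g x i)) := by
  intro k _ _ V _ _ _ Γ _ ρ χ ω halt hnd hω hss W T _ _ _ _ per comp ω₀ hω₀ hωω hF γ hχ hγ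
  have hnd' : ∀ u, (∀ v, ω u v = 0) → u = 0 := by
    intro u hu
    apply hnd
    intro v
    have h1 := halt (u + v)
    simp only [map_add, LinearMap.add_apply, halt, hu, zero_add, add_zero] at h1
    exact h1
  constructor
  · refine mumfordTate_of per comp ρ χ ω hnd' hω ω₀ hω₀ hωω hF fun m φ hφ =>
      tensor_of ρ χ ?_ m φ hφ
    refine coreFor_of_good g E hq.pos.ne' r hr x hx ρ χ ω halt hnd hω hss γ hχ hγ _ ?_
    intro K _ _ _ ρ' hρ'
    refine ⟨X - 1, X_sub_C_ne_zero 1, Pool.Agent.W484.CH.rank_one E r, ?_⟩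
    have h1 : (LinearMap.charpoly ((1 : Representation k Γ k) γ⁻¹)).map (algebraMap k K) =
        X - 1 := by
      have h2 : ((1 : Representation k Γ k) γ⁻¹) = (1 : Module.End k k) := rfl
      rw [h2, LinearMap.charpoly_one]
      simp
    rw [h1] at hρ'
    rw [map_sub, aeval_X, map_one]
    simpa [IsRoot] using hρ'
  · intro N _ _ _ σ hσ N₀ TN _ _ _ _ perN h compN hN
    have hσ' : SmallRank E r (σ γ⁻¹) := by
      rcases hσ with h | h
      · exact h
      · exact h.small hq.pos.ne' E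
    obtain ⟨P, -, hP, hrank⟩ := hσ'
    refine mixed_of per comp ρ χ ω hnd' hω ω₀ hω₀ hωω hF perN h compN σ (fun a => ?_) hN
    refine coreFor_of_good g E hq.pos.ne' r hr x hx ρ χ ω halt hnd hω hss γ hχ hγ _ ?_
    intro K _ _ _ ρ' hρ'
    exact form_poly E P hrank σ γ hP a ρ' hρ'

theorem count {I : Type} [Fintype I] (g : I → ℕ) (r : ℕ) (hr : ∀ i, r < g i)
    (E : IntermediateField ℚ ℂ) [FiniteDimensional ℚ E] :
    ∃ C : ℝ, ∀ q : ℕ, IsPrimePow q → ∀ S : I → Set ℤ[X],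
      (∀ i, ordinaryWeilPolys q (g i) ⊆ S i ∧ S i ⊆ weilPolys q (g i)) →
      (∀ i, (S i).Finite ∧ (S i).Nonempty) ∧
      ({f : I → ℤ[X] | (∀ i, f i ∈ S i) ∧ ¬ Prop3 E q r f}.ncard : ℝ) ≤
        C * (Real.log q * (q : ℝ) ^ (-(1 / 6) : ℝ)) * ∏ i, ((S i).ncard : ℝ) :=
  count_of_goodU (splitPrimes E) (dense_splitPrimes E) g
    (fun i => (Nat.zero_le r).trans_lt (hr i)) (fun q f => Prop3 E q r f)
    (fun q hq x hx => prop3_of_good g E r hr q hq x hx)

end Pool.Agent.U400.MM
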